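import Mathlib

set_option autoImplicit false

namespace Pool.Agent.Results.MP_628392_al.Counter
open Polynomial

/-- quaternionic polynomials in two central variables: the inner one is `u`, the outer one `v` -/
abbrev HP : Type := Polynomial (Polynomial (Quaternion ℝ))

/-- similarity in the sense of Ore: the cyclic left modules are isomorphic -/
def Similar {R : Type} [Ring R] (A B : R) : Prop :=
  Nonempty ((R ⧸ Ideal.span {A}) ≃ₗ[R] (R ⧸ Ideal.span {B}))

/-- every factor is irreducible and has degree at most one in the outer variable -/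
def Adm {S : Type} [Ring S] (l : List (Polynomial S)) : Prop :=
  ∀ A ∈ l, Irreducible A ∧ A.natDegree ≤ 1

/-- the factors are similar in pairs after a permutation -/
def Matched {R : Type} [Ring R] (l m : List R) : Prop :=
  ∃ m' : List R, m'.Perm m ∧ List.Forall₂ Similar l m'

lemma ev0 {S : Type} [Ring S] (b : S) (f : S[X]) (h : f ∈ Ideal.span {X - C b}) :
    f.eval b = 0 := by
  obtain ⟨g, rfl⟩ := Ideal.mem_span_singleton'.1 h
  exact eval_mul_X_sub_C b

lemma red {S : Type} [Ring S] (a : S) (y : S[X]) : y - C (y.eval a) ∈ Ideal.span {X - C a} := by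
  induction y using Polynomial.induction_on' with
  | add p q hp hq =>
    rw [eval_add, C_add, add_sub_add_comm]
    exact add_mem hp hq
  | monomial n c =>
    rw [eval_monomial, ← C_mul_X_pow_eq_monomial, C_mul, C_pow, ← mul_sub,
      ← (commute_X (C a)).geom_sum₂_mul n, ← mul_assoc]
    exact Ideal.mem_span_singleton'.2 ⟨_, rfl⟩

lemma sim {S : Type} [Ring S] (a b : S) (h : Similar (X - C a) (X - C b)) :
    ∃ w w' : S, w * b = a * w ∧ w' * w = 1 := by
  obtain ⟨e⟩ := h
  obtain ⟨x, hx⟩ := Submodule.Quotient.mk_surjective _ (e (Submodule.Quotient.mk 1))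
  obtain ⟨y, hy⟩ := Submodule.Quotient.mk_surjective _ (e.symm (Submodule.Quotient.mk 1))
  have key : ∀ z : S[X], e (Submodule.Quotient.mk z) = Submodule.Quotient.mk (z * x) := fun z => by
    rw [← smul_eq_mul, Submodule.Quotient.mk_smul, hx, ← map_smul, ← Submodule.Quotient.mk_smul,
      smul_eq_mul, mul_one]
  refine ⟨x.eval b, y.eval a, ?_, ?_⟩
  · have h1 := key (X - C a)
    rw [(Submodule.Quotient.mk_eq_zero _).2 (Ideal.mem_span_singleton_self _), map_zero] at h1
    have h2 := ev0 b _ ((Submodule.Quotient.mk_eq_zero _).1 h1.symm)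
    rw [sub_mul, eval_sub, X_mul, eval_mul_X, eval_C_mul] at h2
    exact sub_eq_zero.1 h2
  · have h1 := key (C (y.eval a))
    rw [← (Submodule.Quotient.eq _).2 (red a y), hy, e.apply_symm_apply] at h1
    have h2 := ev0 b _ ((Submodule.Quotient.eq _).1 h1.symm)
    rw [eval_sub, eval_C_mul, eval_one] at h2
    exact sub_eq_zero.1 h2

lemma sim2 (a b : (Quaternion ℝ)[X]) (h : Similar (X - C a) (X - C b)) (hb : b.coeff 1 = 0) :
    a.coeff 1 = 0 := by
  obtain ⟨w, w', h1, h2⟩ := sim a b h
  have hw : w ≠ 0 := by rintro rfl; simp at h2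
  have hw' : w' ≠ 0 := by rintro rfl; simp at h2
  have h3 := natDegree_mul hw' hw
  rw [h2, natDegree_one] at h3
  obtain ⟨c, rfl⟩ : ∃ c, w = C c := ⟨_, eq_C_of_natDegree_eq_zero (by omega)⟩
  have h4 := congrArg (fun p => coeff p 1) h1
  simp only [coeff_C_mul, coeff_mul_C, hb, mul_zero] at h4
  exact (mul_eq_zero.1 h4.symm).resolve_right fun hc => hw (by rw [hc, C_0])

lemma unit_of {D : Type} [DivisionRing D] (a b : D[X]) (h : a * b = 1) : IsUnit a ∧ IsUnit b := by
  have ha : a ≠ 0 := by rintro rfl; simp at h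
  have hb : b ≠ 0 := by rintro rfl; simp at h
  have h3 := natDegree_mul ha hb
  rw [h, natDegree_one] at h3
  rw [eq_C_of_natDegree_eq_zero (by omega : a.natDegree = 0)] at ha ⊢
  rw [eq_C_of_natDegree_eq_zero (by omega : b.natDegree = 0)] at hb ⊢
  exact ⟨isUnit_C.2 (Ne.isUnit (C_ne_zero.1 ha)), isUnit_C.2 (Ne.isUnit (C_ne_zero.1 hb))⟩

lemma irr (a : (Quaternion ℝ)[X]) : Irreducible (X - C a) ∧ (X - C a).natDegree ≤ 1 := by
  refine ⟨⟨fun ⟨u, hu⟩ => ?_, fun f g h => ?_⟩, (natDegree_X_sub_C a).le⟩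
  · have h3 := natDegree_mul u.ne_zero u⁻¹.ne_zero
    rw [u.mul_inv, natDegree_one, hu, natDegree_X_sub_C] at h3
    omega
  · have hf : f ≠ 0 := by rintro rfl; exact X_sub_C_ne_zero a (by simpa using h)
    have hg : g ≠ 0 := by rintro rfl; exact X_sub_C_ne_zero a (by simpa using h)
    have h3 := natDegree_mul hf hg
    have h4 := leadingCoeff_mul f g
    rw [← h, natDegree_X_sub_C] at h3
    rw [← h, leadingCoeff_X_sub_C] at h4
    obtain ⟨h5, h6⟩ := unit_of _ _ h4.symm
    by_cases h0 : f.natDegree = 0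
    · left
      rw [leadingCoeff, h0] at h5
      rw [eq_C_of_natDegree_eq_zero h0]
      exact h5.map C
    · right
      have h1 : g.natDegree = 0 := by omega
      rw [leadingCoeff, h1] at h6
      rw [eq_C_of_natDegree_eq_zero h1]
      exact h6.map C

lemma sq_eq {S : Type} [Ring S] (a b t : S) (haa : a * a = -1) (hbb : b * b = -1)
    (hab : b * a = -(a * b)) (ha : t * a = a * t) (hb : t * b = b * t) :
    (a * (t * t) - a + (b * t + b * t)) * (a * (t * t) - a + (b * t + b * t)) =
      (a * (t * t) + a) * (a * (t * t) + a) := by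
  have h1 : ∀ z, t * (a * z) = a * (t * z) := fun z => by rw [← mul_assoc, ha, mul_assoc]
  have h2 : ∀ z, t * (b * z) = b * (t * z) := fun z => by rw [← mul_assoc, hb, mul_assoc]
  have h3 : ∀ z, a * (a * z) = -z := fun z => by rw [← mul_assoc, haa, neg_one_mul]
  have h4 : ∀ z, b * (b * z) = -z := fun z => by rw [← mul_assoc, hbb, neg_one_mul]
  have h5 : ∀ z, b * (a * z) = -(a * (b * z)) := fun z => by
    rw [← mul_assoc, hab, neg_mul, mul_assoc]
  simp only [mul_add, add_mul, mul_sub, sub_mul, mul_assoc, h1, h2, h3, h4, h5, ha, haa]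
  abel

def qi : Quaternion ℝ := ⟨0, 1, 0, 0⟩
def qj : Quaternion ℝ := ⟨0, 0, 1, 0⟩

noncomputable def al : (Quaternion ℝ)[X] := C qi * (X * X) - C qi + (C qj * X + C qj * X)
noncomputable def be : (Quaternion ℝ)[X] := C qi * (X * X) + C qi

lemma q1 : qi * qi = -1 := by
  ext <;> simp only [qi, Quaternion.re_mul, Quaternion.imI_mul, Quaternion.imJ_mul,
    Quaternion.imK_mul, Quaternion.re_neg, Quaternion.imI_neg, Quaternion.imJ_neg,
    Quaternion.imK_neg, Quaternion.re_one, Quaternion.imI_one, Quaternion.imJ_one,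
    Quaternion.imK_one] <;> norm_num

lemma q2 : qj * qj = -1 := by
  ext <;> simp only [qj, Quaternion.re_mul, Quaternion.imI_mul, Quaternion.imJ_mul,
    Quaternion.imK_mul, Quaternion.re_neg, Quaternion.imI_neg, Quaternion.imJ_neg,
    Quaternion.imK_neg, Quaternion.re_one, Quaternion.imI_one, Quaternion.imJ_one,
    Quaternion.imK_one] <;> norm_num

lemma q3 : qj * qi = -(qi * qj) := by
  ext <;> simp only [qi, qj, Quaternion.re_mul, Quaternion.imI_mul, Quaternion.imJ_mul,
    Quaternion.imK_mul, Quaternion.re_neg, Quaternion.imI_neg, Quaternion.imJ_neg,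
    Quaternion.imK_neg] <;> norm_num

lemma al_be : al * al = be * be :=
  sq_eq (C qi) (C qj) X (by rw [← C_mul, q1, C_neg, C_1]) (by rw [← C_mul, q2, C_neg, C_1])
    (by rw [← C_mul, q3, C_neg, C_mul]) X_mul X_mul

lemma al1 : al.coeff 1 ≠ 0 := by
  have : al.coeff 1 = qj + qj := by
    simp [al, ← sq, coeff_X_pow, coeff_C]
  rw [this]
  intro h
  have h2 : (1 : ℝ) + 1 = 0 := congrArg QuaternionAlgebra.imJ h
  norm_num at h2

lemma be1 : be.coeff 1 = 0 := by simp [be, ← sq, coeff_X_pow]

lemma prod2 {S : Type} [Ring S] (a : S) : (X - C a) * (X - C (-a)) = X * X - C (a * a) := by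
  rw [C_neg, C_mul, sub_neg_eq_add, sub_mul, mul_add, mul_add, X_mul (p := C a)]
  abel

theorem result : ∃ l m : List HP, Adm l ∧ Adm m ∧ l.prod = m.prod ∧ l.prod ≠ 0 ∧
    ¬ Matched l m := by
  refine ⟨[X - C al, X - C (-al)], [X - C be, X - C (-be)], ?_, ?_, ?_, ?_, ?_⟩
  · intro A hA
    simp only [List.mem_cons, List.not_mem_nil, or_false] at hA
    rcases hA with rfl | rfl <;> exact irr _
  · intro A hA
    simp only [List.mem_cons, List.not_mem_nil, or_false] at hA
    rcases hA with rfl | rfl <;> exact irr _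
  · simp only [List.prod_cons, List.prod_nil, mul_one, prod2, al_be]
  · simp only [List.prod_cons, List.prod_nil, mul_one]
    exact mul_ne_zero (X_sub_C_ne_zero _) (X_sub_C_ne_zero _)
  · rintro ⟨m', hp, hf⟩
    obtain ⟨B, m'', h1, -, rfl⟩ := List.forall₂_cons_left_iff.1 hf
    have hB := hp.subset (List.mem_cons_self)
    simp only [List.mem_cons, List.not_mem_nil, or_false] at hB
    rcases hB with rfl | rfl
    · exact al1 (sim2 _ _ h1 be1)
    · exact al1 (sim2 _ _ h1 (by rw [coeff_neg, be1, neg_zero]))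

end Pool.Agent.Results.MP_628392_al.Counter
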